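import Mathlib
import Pool.Agent.R55.SGCol
import Pool.Agent.R55.SGLow

/-!
# Edges at regular vertices of Schrijver graphs are critical

`SG n k` is the Schrijver graph: its vertices are the `k`-element subsets of the cycle `ZMod n`
containing no two cyclically consecutive elements, two of them adjacent when they are disjoint.
A vertex is regular if it meets every three cyclically consecutive elements. We prove that, for all
`n ≥ 2k ≥ 2`, deleting an edge incident to a regular vertex lowers the chromatic number.
-/

set_option autoImplicit false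

namespace Pool.Agent.Results.MP_b71732_co.RegularCritical

open Finset Pool.Agent.R55.SGCol Pool.Agent.R55.SGLow Pool.Agent.H370R3.SphereTools

/-- The `k`-element subsets of the cycle `ZMod n` with no two cyclically consecutive elements. -/
abbrev StableSet (n k : ℕ) : Type := {S : Finset (ZMod n) // S.card = k ∧ ∀ i ∈ S, i + 1 ∉ S}

/-- The Schrijver graph `SG(n,k)`. -/
def SG (n k : ℕ) : SimpleGraph (StableSet n k) where
  Adj S T := S ≠ T ∧ Disjoint S.1 T.1
  symm := ⟨fun _ _ h => ⟨h.1.symm, h.2.symm⟩⟩
  loopless := ⟨fun _ h => h.1 rfl⟩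

/-- `V` is regular: every three cyclically consecutive elements contain one of `V`. -/
def Regular {n k : ℕ} (V : StableSet n k) : Prop :=
  ∀ i : ZMod n, i ∈ V.1 ∨ i + 1 ∈ V.1 ∨ i + 2 ∈ V.1

/-! ### The colouring -/

theorem colorable (n k : ℕ) (hk : 1 ≤ k) (hn : 2 * k ≤ n) (V W : StableSet n k)
    (hV : Regular V) (hVW : (SG n k).Adj V W) :
    ((SG n k).deleteEdges {s(V, W)}).Colorable (n - 2 * k + 1) := by
  classical
  have : NeZero n := ⟨by omega⟩
  have h : Sett n k V.1 W.1 :=
    { hV := V.2.1, hW := W.2.1, sV := V.2.2, sW := W.2.2, disj := hVW.2, reg := hV }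
  obtain ⟨b, hb⟩ : ∃ b, b ∈ V.1 := by
    have : 0 < V.1.card := by rw [V.2.1]; omega
    obtain ⟨b, hb⟩ := Finset.card_pos.1 this
    exact ⟨b, hb⟩
  let D : Type := {x : ZMod n // x ∉ V.1 ∪ W.1}
  have hDcard : Fintype.card (Option D) = n - 2 * k + 1 := by
    rw [Fintype.card_option, Fintype.card_subtype_compl]
    congr 1
    rw [ZMod.card, Fintype.card_coe, Finset.card_union_of_disjoint h.disj, h.hV, h.hW]
    omega
  -- star colours
  have hstar : ∀ T : StableSet n k, (∃ x ∈ T.1, x ∉ V.1 ∧ x ∉ W.1) →
      ∃ j : D, j.1 ∈ T.1 ∧ ∀ S : Finset (ZMod n), S.card = k → Mv b V.1 W.1 S j.1 →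
        ¬ Disjoint T.1 S := by
    intro T hT
    obtain ⟨j, h1, h2, h3, h4⟩ := class1 h hb T.2.1 T.2.2 hT
    exact ⟨⟨j, by rw [Finset.mem_union]; tauto⟩, h1, h4⟩
  let MvD : StableSet n k → Prop := fun S => ∃ M : D, Mv b V.1 W.1 S.1 M.1
  let col : StableSet n k → Option D := fun T =>
    if hT : ∃ x ∈ T.1, x ∉ V.1 ∧ x ∉ W.1 then some (hstar T hT).choose
    else if hM : MvD T then some hM.choose else none
  have hsub : ∀ T : StableSet n k, ¬ (∃ x ∈ T.1, x ∉ V.1 ∧ x ∉ W.1) → T.1 ⊆ V.1 ∪ W.1 := by
    intro T hT x hx
    rw [Finset.mem_union]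
    by_contra hc
    rw [not_or] at hc
    exact hT ⟨x, hx, hc⟩
  have hcol : ((SG n k).deleteEdges {s(V, W)}).Coloring (Option D) := by
    refine SimpleGraph.Coloring.mk col ?_
    intro S T hST heq
    rw [SimpleGraph.deleteEdges_adj, Set.mem_singleton_iff] at hST
    obtain ⟨⟨hne, hdisj⟩, hnot⟩ := hST
    by_cases hS : ∃ x ∈ S.1, x ∉ V.1 ∧ x ∉ W.1
    · have eS : col S = some (hstar S hS).choose := dif_pos hS
      have sS := (hstar S hS).choose_spec
      by_cases hT : ∃ x ∈ T.1, x ∉ V.1 ∧ x ∉ W.1
      · have eT : col T = some (hstar T hT).choose := dif_pos hT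
        have sT := (hstar T hT).choose_spec
        rw [eS, eT, Option.some.injEq] at heq
        rw [heq] at sS
        exact Finset.disjoint_left.1 hdisj sS.1 sT.1
      · by_cases hM : MvD T
        · have eT : col T = some hM.choose := by
            change (if hT : ∃ x ∈ T.1, x ∉ V.1 ∧ x ∉ W.1 then some (hstar T hT).choose
              else if hM : MvD T then some hM.choose else none) = _
            rw [dif_neg hT, dif_pos hM]
          have sT := hM.choose_spec
          rw [eS, eT, Option.some.injEq] at heq
          rw [← heq] at sT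
          exact sS.2 T.1 T.2.1 sT hdisj
        · have eT : col T = none := by
            change (if hT : ∃ x ∈ T.1, x ∉ V.1 ∧ x ∉ W.1 then some (hstar T hT).choose
              else if hM : MvD T then some hM.choose else none) = _
            rw [dif_neg hT, dif_neg hM]
          rw [eS, eT] at heq
          exact Option.some_ne_none _ heq
    · by_cases hMS : MvD S
      · have eS : col S = some hMS.choose := by
          change (if hT : ∃ x ∈ S.1, x ∉ V.1 ∧ x ∉ W.1 then some (hstar S hT).choose
            else if hM : MvD S then some hM.choose else none) = _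
          rw [dif_neg hS, dif_pos hMS]
        have sS := hMS.choose_spec
        by_cases hT : ∃ x ∈ T.1, x ∉ V.1 ∧ x ∉ W.1
        · have eT : col T = some (hstar T hT).choose := dif_pos hT
          have sT := (hstar T hT).choose_spec
          rw [eS, eT, Option.some.injEq] at heq
          rw [heq] at sS
          exact sT.2 S.1 S.2.1 sS hdisj.symm
        · by_cases hM : MvD T
          · have eT : col T = some hM.choose := by
              change (if hT : ∃ x ∈ T.1, x ∉ V.1 ∧ x ∉ W.1 then some (hstar T hT).choose
                else if hM : MvD T then some hM.choose else none) = _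
              rw [dif_neg hT, dif_pos hM]
            have sT := hM.choose_spec
            rw [eS, eT, Option.some.injEq] at heq
            rw [heq] at sS
            exact class2 h S.2.1 T.2.1 sS sT hdisj
          · have eT : col T = none := by
              change (if hT : ∃ x ∈ T.1, x ∉ V.1 ∧ x ∉ W.1 then some (hstar T hT).choose
                else if hM : MvD T then some hM.choose else none) = _
              rw [dif_neg hT, dif_neg hM]
            rw [eS, eT] at heq
            exact Option.some_ne_none _ heq
      · have eS : col S = none := by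
          change (if hT : ∃ x ∈ S.1, x ∉ V.1 ∧ x ∉ W.1 then some (hstar S hT).choose
            else if hM : MvD S then some hM.choose else none) = _
          rw [dif_neg hS, dif_neg hMS]
        by_cases hT : ∃ x ∈ T.1, x ∉ V.1 ∧ x ∉ W.1
        · have eT : col T = some (hstar T hT).choose := dif_pos hT
          rw [eS, eT] at heq
          exact Option.some_ne_none _ heq.symm
        · by_cases hM : MvD T
          · have eT : col T = some hM.choose := by
              change (if hT : ∃ x ∈ T.1, x ∉ V.1 ∧ x ∉ W.1 then some (hstar T hT).choose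
                else if hM : MvD T then some hM.choose else none) = _
              rw [dif_neg hT, dif_pos hM]
            rw [eS, eT] at heq
            exact Option.some_ne_none _ heq.symm
          · -- both keep the last colour: they must be `V` and `W`
            have hSU := hsub S hS
            have hTU := hsub T hT
            have hU := union_eq h S.2.1 T.2.1 hSU hTU hdisj
            have hbU : b ∈ S.1 ∪ T.1 := by rw [hU]; exact Finset.mem_union_left _ hb
            have hmvD : ∀ (X : StableSet n k) (M : ZMod n), Mv b V.1 W.1 X.1 M → MvD X := by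
              intro X M hX
              refine ⟨⟨M, ?_⟩, hX⟩
              rw [Finset.mem_union]
              have h1 := hX.1
              have h2 := hX.2.1
              tauto
            have hWeq : ∀ X Y : StableSet n k, X.1 = V.1 → Disjoint X.1 Y.1 →
                X.1 ∪ Y.1 = V.1 ∪ W.1 → Y.1 = W.1 := by
              intro X Y e1 e2 e3
              rw [e1] at e2 e3
              ext x
              have h3 := Finset.ext_iff.1 e3 x
              rw [Finset.mem_union, Finset.mem_union] at h3
              constructor
              · intro hx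
                exact (h3.1 (Or.inr hx)).resolve_left
                  (fun hc => Finset.disjoint_left.1 e2 hc hx)
              · intro hx
                exact (h3.2 (Or.inr hx)).resolve_left
                  (fun hc => Finset.disjoint_left.1 h.disj hc hx)
            rw [Finset.mem_union] at hbU
            rcases hbU with hbS | hbT
            · by_cases hSV : S.1 = V.1
              · apply hnot
                have e1 : S = V := Subtype.ext hSV
                have e2 : T = W := Subtype.ext (hWeq S T hSV hdisj hU)
                rw [e1, e2]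
              · obtain ⟨M, hM1 | hM1⟩ := class3 h hb S.2.1 T.2.1 S.2.2 T.2.2 hSU hTU hdisj hbS hSV
                · exact hMS (hmvD S M hM1)
                · exact hM (hmvD T M hM1)
            · by_cases hTV : T.1 = V.1
              · apply hnot
                have e1 : T = V := Subtype.ext hTV
                have e2 : S = W := Subtype.ext (hWeq T S hTV hdisj.symm
                  (by rw [Finset.union_comm]; exact hU))
                rw [e1, e2]
                exact Sym2.eq_swap
              · obtain ⟨M, hM1 | hM1⟩ :=
                  class3 h hb T.2.1 S.2.1 T.2.2 S.2.2 hTU hSU hdisj.symm hbT hTV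
                · exact hM (hmvD T M hM1)
                · exact hMS (hmvD S M hM1)
  have := hcol.colorable
  rwa [hDcard] at this

/-! ### The lower bound (Schrijver's theorem) -/

/-- the signed values of the polynomial with coefficients `x` -/
noncomputable def w {n m : ℕ} (i : ZMod n) (x : E m) : ℝ :=
  (-1) ^ i.val * ∑ j : Fin m, x j * (i.val : ℝ) ^ (j : ℕ)

theorem w_neg {n m : ℕ} (i : ZMod n) (x : E m) : w i (-x) = - w i x := by
  simp [w]

theorem w_cont {n m : ℕ} (i : ZMod n) : Continuous fun x : E m => w i x := by
  unfold w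
  fun_prop

/-- positive iff some member of `F` lies in the positive part -/
noncomputable def gg {n m : ℕ} (F : Finset (Finset (ZMod n))) (x : E m) : ℝ :=
  ∑ S ∈ F, ∏ i ∈ S, max (w i x) 0

theorem gg_cont {n m : ℕ} (F : Finset (Finset (ZMod n))) : Continuous fun x : E m => gg F x := by
  unfold gg
  refine continuous_finsetSum _ fun S _ => continuous_finsetProd _ fun i _ => ?_
  exact (w_cont i).max continuous_const

theorem gg_pos {n m : ℕ} {F : Finset (Finset (ZMod n))} {x : E m} {S : Finset (ZMod n)}
    (hS : S ∈ F) (h : ∀ i ∈ S, 0 < w i x) : 0 < gg F x := by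
  refine Finset.sum_pos' (fun S _ => Finset.prod_nonneg fun _ _ => le_max_right _ _) ⟨S, hS, ?_⟩
  refine Finset.prod_pos fun i hi => ?_
  rw [max_eq_left (h i hi).le]
  exact h i hi

theorem exists_of_gg_ne {n m : ℕ} {F : Finset (Finset (ZMod n))} {x : E m} (h : gg F x ≠ 0) :
    ∃ S ∈ F, ∀ i ∈ S, 0 < w i x := by
  obtain ⟨S, hS, hne⟩ := Finset.exists_ne_zero_of_sum_ne_zero h
  refine ⟨S, hS, fun i hi => ?_⟩
  have h1 := (Finset.prod_ne_zero_iff.mp hne) i hi
  by_contra hle
  exact h1 (max_eq_right (not_lt.mp hle))

open Polynomial in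
/-- both the positive and the negative part of a nonzero polynomial contain a stable set -/
theorem stable_parts {n k d : ℕ} (hk : 1 ≤ k) (hn : n = 2 * k + d) (x : E (d + 1)) (hx : x ≠ 0) :
    (∃ S : StableSet n k, ∀ i ∈ S.1, 0 < w i x) ∧ (∃ S : StableSet n k, ∀ i ∈ S.1, w i x < 0) := by
  classical
  have : NeZero n := ⟨by omega⟩
  let P : ℝ[X] := ∑ j : Fin (d + 1), C (x j) * X ^ (j : ℕ)
  have hdeg : P.natDegree ≤ d := by
    refine natDegree_sum_le_of_forall_le _ _ fun j _ => ?_
    refine (natDegree_C_mul_X_pow_le _ _).trans ?_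
    have := j.2
    omega
  have hne : P ≠ 0 := by
    obtain ⟨j, hj⟩ : ∃ j, x j ≠ 0 := by
      by_contra h
      push Not at h
      exact hx (by ext j; exact h j)
    intro h0
    apply hj
    have h1 : P.coeff (j : ℕ) = x j := by
      simp only [P, finsetSum_coeff, coeff_C_mul, coeff_X_pow]
      rw [Finset.sum_eq_single j]
      · simp
      · intro b _ hb
        have : (j : ℕ) ≠ (b : ℕ) := fun h => hb (Fin.ext h.symm)
        simp [this]
      · simp
    rw [← h1, h0, coeff_zero]
  have heval : ∀ i : ℕ, i < n → (-1 : ℝ) ^ i * P.eval (i : ℝ) = w (i : ZMod n) x := by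
    intro i hi
    have : ((i : ℕ) : ZMod n).val = i := by rw [ZMod.val_natCast, Nat.mod_eq_of_lt hi]
    unfold w
    rw [this]
    simp [P, eval_finsetSum]
  obtain ⟨c, hc, t, ht1, ht2, ht3⟩ := gale P hne n k d hk hn hdeg
  have hmono : ∀ i j, i < j → j < 2 * k → t i < t j := by
    intro i j hij
    induction j, hij using Nat.le_induction with
    | base => intro h; exact ht2 i h
    | succ j hj ih =>
      intro h
      exact (ih (by omega)).trans (ht2 j h)
  -- the two stable sets
  have hmk : ∀ e : ℕ, e < 2 → ∃ S : StableSet n k, ∀ i ∈ S.1, 0 < c * (-1) ^ e * w i x := by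
    intro e he
    let φ : ℕ → ZMod n := fun j => ((t (2 * j + e) : ℕ) : ZMod n)
    have hval : ∀ j < k, (φ j).val = t (2 * j + e) := by
      intro j hj
      simp only [φ]
      rw [ZMod.val_natCast, Nat.mod_eq_of_lt (ht1 _ (by omega)).2]
    have hinj : Set.InjOn φ (Finset.range k) := by
      intro i hi j hj hij
      rw [Finset.mem_coe, Finset.mem_range] at hi hj
      have h1 : t (2 * i + e) = t (2 * j + e) := by
        rw [← hval i hi, ← hval j hj, hij]
      by_contra hne
      rcases lt_or_gt_of_ne hne with h | h
      · have := hmono (2 * i + e) (2 * j + e) (by omega) (by omega)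
        omega
      · have := hmono (2 * j + e) (2 * i + e) (by omega) (by omega)
        omega
    refine ⟨⟨(Finset.range k).image φ, ?_, ?_⟩, ?_⟩
    · rw [Finset.card_image_of_injOn hinj, Finset.card_range]
    · intro y hy hy'
      obtain ⟨i, hi, rfl⟩ := Finset.mem_image.1 hy
      obtain ⟨j, hj, hij⟩ := Finset.mem_image.1 hy'
      rw [Finset.mem_range] at hi hj
      have hti := (ht1 (2 * i + e) (by omega)).2
      have htj := (ht1 (2 * j + e) (by omega)).2
      have h1 : t (2 * j + e) = (t (2 * i + e) + 1) % n := by
        rw [← hval j hj, hij]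
        simp only [φ]
        rw [← Nat.cast_one (R := ZMod n), ← Nat.cast_add, ZMod.val_natCast]
      rcases Nat.lt_or_ge (t (2 * i + e) + 1) n with hlt | hge
      · rw [Nat.mod_eq_of_lt hlt] at h1
        rcases lt_trichotomy i j with h | h | h
        · have h2 := hmono (2 * i + e) (2 * i + e + 1) (by omega) (by omega)
          have h3 := hmono (2 * i + e + 1) (2 * j + e) (by omega) (by omega)
          omega
        · subst h; omega
        · have h2 := hmono (2 * j + e) (2 * i + e) (by omega) (by omega)
          omega
      · have h0 : t (2 * i + e) + 1 = n := by omega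
        rw [h0, Nat.mod_self] at h1
        -- `t (2i+e) = n - 1` and `t (2j+e) = 0`
        have hlast : ¬ (2 * i + e + 1 < 2 * k) := by
          intro hc'
          have h2 := ht2 (2 * i + e) hc'
          have h3 := (ht1 (2 * i + e + 1) hc').2
          omega
        have hfirst : 2 * j + e = 0 := by
          by_contra hc'
          have h2 := hmono 0 (2 * j + e) (by omega) (by omega)
          omega
        omega
    · intro y hy
      obtain ⟨i, hi, rfl⟩ := Finset.mem_image.1 hy
      rw [Finset.mem_range] at hi
      have h1 := ht3 (2 * i + e) (by omega)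
      dsimp only at h1
      rw [heval _ (ht1 (2 * i + e) (by omega)).2, pow_add, pow_mul] at h1
      simpa using h1
  obtain ⟨S0, hS0⟩ := hmk 0 (by norm_num)
  obtain ⟨S1, hS1⟩ := hmk 1 (by norm_num)
  have hcc : c = 1 ∨ c = -1 := by
    have : (c - 1) * (c + 1) = 0 := by nlinarith
    rcases mul_eq_zero.1 this with h | h
    · left; linarith
    · right; linarith
  rcases hcc with rfl | rfl
  · refine ⟨⟨S0, fun i hi => ?_⟩, ⟨S1, fun i hi => ?_⟩⟩
    · have := hS0 i hi
      simpa using this
    · have := hS1 i hi
      simpa using this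
  · refine ⟨⟨S1, fun i hi => ?_⟩, ⟨S0, fun i hi => ?_⟩⟩
    · have := hS1 i hi
      simpa using this
    · have := hS0 i hi
      simpa using this

theorem not_colorable (n k : ℕ) (hk : 1 ≤ k) (hn : 2 * k ≤ n) :
    ¬ (SG n k).Colorable (n - 2 * k + 1) := by
  classical
  have : NeZero n := ⟨by omega⟩
  obtain ⟨d, hd⟩ : ∃ d, n = 2 * k + d := ⟨n - 2 * k, by omega⟩
  rw [show n - 2 * k + 1 = d + 1 by omega]
  rintro ⟨C⟩
  let F : Fin (d + 1) → Finset (Finset (ZMod n)) := fun a =>
    (Finset.univ.filter fun S : StableSet n k => C S = a).image Subtype.val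
  have hF : ∀ a S, S ∈ F a ↔ ∃ hS, C ⟨S, hS⟩ = a := by
    intro a S
    simp only [F, Finset.mem_image, Finset.mem_filter, Finset.mem_univ, true_and]
    constructor
    · rintro ⟨T, hT, rfl⟩
      exact ⟨T.2, hT⟩
    · rintro ⟨hS, h⟩
      exact ⟨⟨S, hS⟩, h, rfl⟩
  let f : Sph d → (Fin d → ℝ) := fun x a =>
    gg (F a.castSucc) (x : E (d + 1)) - gg (F a.castSucc) (-(x : E (d + 1)))
  have hf : Continuous f := by
    refine continuous_pi fun a => ?_
    exact ((gg_cont _).comp continuous_subtype_val).sub
      ((gg_cont _).comp continuous_subtype_val.neg)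
  have hodd : ∀ x, f (-x) = - f x := by
    intro x
    funext a
    simp only [f, Pi.neg_apply]
    have : ((-x : Sph d) : E (d + 1)) = -(x : E (d + 1)) := rfl
    rw [this, neg_neg]
    ring
  obtain ⟨x, hx⟩ := borsuk_ulam le_rfl f hf hodd
  set y : E (d + 1) := (x : E (d + 1)) with hy
  have hy0 : y ≠ 0 := by
    intro h0
    have h1 := x.2
    rw [mem_sphere_zero_iff_norm, ← hy, h0, norm_zero] at h1
    exact zero_ne_one h1
  have heq : ∀ a : Fin d, gg (F a.castSucc) y = gg (F a.castSucc) (-y) := by
    intro a
    have := congrFun hx a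
    simp only [f, Pi.zero_apply] at this
    linarith
  -- two stable sets in the opposite parts have different colours
  have hdiff : ∀ S T : StableSet n k, (∀ i ∈ S.1, 0 < w i y) → (∀ i ∈ T.1, w i y < 0) →
      C S ≠ C T := by
    intro S T hS hT
    have hdisj : Disjoint S.1 T.1 := by
      rw [Finset.disjoint_left]
      intro i h1 h2
      have := hS i h1
      have := hT i h2
      linarith
    have hne : S ≠ T := by
      rintro rfl
      have hk' : 0 < S.1.card := by rw [S.2.1]; omega
      obtain ⟨i, hi⟩ := Finset.card_pos.1 hk'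
      exact Finset.disjoint_left.1 hdisj hi hi
    exact C.valid (show (SG n k).Adj S T from ⟨hne, hdisj⟩)
  have hlast1 : ∀ S : StableSet n k, (∀ i ∈ S.1, 0 < w i y) → C S = Fin.last d := by
    intro S hS
    by_contra hne
    obtain ⟨a, ha⟩ := Fin.exists_castSucc_eq.2 hne
    have h1 := gg_pos (F := F a.castSucc) (x := y) ((hF _ _).2 ⟨S.2, by rw [ha]⟩) hS
    rw [heq a] at h1
    obtain ⟨T, hT, hTpos⟩ := exists_of_gg_ne h1.ne'
    obtain ⟨hT1, hT2⟩ := (hF _ _).1 hT
    refine hdiff S ⟨T, hT1⟩ hS (fun i hi => ?_) (by rw [hT2, ha])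
    have := hTpos i hi
    rw [w_neg] at this
    linarith
  have hlast2 : ∀ T : StableSet n k, (∀ i ∈ T.1, w i y < 0) → C T = Fin.last d := by
    intro T hT
    by_contra hne
    obtain ⟨a, ha⟩ := Fin.exists_castSucc_eq.2 hne
    have h1 := gg_pos (F := F a.castSucc) (x := -y) ((hF _ _).2 ⟨T.2, by rw [ha]⟩)
      (fun i hi => by rw [w_neg]; have := hT i hi; linarith)
    rw [← heq a] at h1
    obtain ⟨S, hS, hSpos⟩ := exists_of_gg_ne h1.ne'
    obtain ⟨hS1, hS2⟩ := (hF _ _).1 hS
    exact hdiff ⟨S, hS1⟩ T hSpos hT (by rw [hS2, ha])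
  obtain ⟨⟨S, hS⟩, ⟨T, hT⟩⟩ := stable_parts hk hd y hy0
  exact hdiff S T hS hT ((hlast1 S hS).trans (hlast2 T hT).symm)

/-- For all `n ≥ 2k ≥ 2`, every edge `{V, W}` of the Schrijver graph `SG(n,k)` with a regular end
vertex `V` is critical: deleting it lowers the chromatic number. -/
theorem result : ∀ (n k : ℕ), 1 ≤ k → 2 * k ≤ n → ∀ V W : StableSet n k, Regular V →
    (SG n k).Adj V W →
      ((SG n k).deleteEdges {s(V, W)}).chromaticNumber < (SG n k).chromaticNumber := by
  intro n k hk hn V W hV hVW
  have h1 := (colorable n k hk hn V W hV hVW).chromaticNumber_le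
  refine lt_of_le_of_lt h1 ?_
  by_contra hcon
  exact not_colorable n k hk hn (SimpleGraph.chromaticNumber_le_iff_colorable.1 (not_lt.mp hcon))

end Pool.Agent.Results.MP_b71732_co.RegularCritical
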